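import Mathlib
import Pool.Graph.R_seed8.Results.MP_aa9902_co.SqrtRowBound

/-!
# Rounding with error `C √R`, for infinite complex matrices

Linear discrepancy version of the sign vector theorem, for matrices of any size: the rows and the
columns are indexed by arbitrary, possibly infinite, types.
-/

set_option autoImplicit false

open Filter Topology
open scoped NNReal ENNReal

universe u v

namespace Pool.Agent.Results.MP_aa9902_co.LinearDiscrepancy

/-- `y` is a vector of signs. -/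
def Signs {J : Type v} (y : J → ℝ) : Prop := ∀ j, y j = 1 ∨ y j = -1

/-- All finite submatrices have a sign vector with row discrepancies at most `B`. -/
def Her {I : Type u} {J : Type v} (W : I → J → ℝ) (B : I → ℝ) : Prop :=
  ∀ (A : Finset I) (S : Finset J), ∃ y : J → ℝ, Signs y ∧ ∀ i ∈ A, |∑ j ∈ S, W i j * y j| ≤ B i

theorem round {I : Type u} {J : Type v} {W : I → J → ℝ} {B : I → ℝ} (hB : Her W B)
    (A : Finset I) (S : Finset J) (k : ℕ) (x : J → ℝ) (hx : ∀ j, |x j| ≤ 1)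
    (hd : ∀ j, ∃ m : ℤ, x j * 2 ^ k = m) :
    ∃ y : J → ℝ, Signs y ∧ ∀ i ∈ A, |∑ j ∈ S, W i j * (x j - y j)| ≤ B i * (2 - (1 / 2) ^ k) := by
  classical
  induction k generalizing x with
  | zero =>
    obtain ⟨ε, hε, h⟩ := hB A (S.filter fun j => x j = 0)
    refine ⟨fun j => if x j = 0 then ε j else x j, fun j => ?_, fun i hi => ?_⟩
    · by_cases h0 : x j = 0
      · simp only [h0, if_true]; exact hε j
      · simp only [h0, if_false]
        obtain ⟨m, hm⟩ := hd j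
        rw [pow_zero, mul_one] at hm
        have h1 := hx j
        rw [hm] at h1 h0 ⊢
        have h2 : |m| ≤ 1 := by exact_mod_cast h1
        have h3 : m ≠ 0 := by exact_mod_cast h0
        rw [abs_le] at h2
        have h4 : m = 1 ∨ m = -1 := by omega
        rcases h4 with rfl | rfl
        · left; norm_num
        · right; norm_num
    · have h1 : ∑ j ∈ S, W i j * (x j - if x j = 0 then ε j else x j) =
          -∑ j ∈ S.filter fun j => x j = 0, W i j * ε j := by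
        rw [Finset.sum_filter, ← Finset.sum_neg_distrib]
        refine Finset.sum_congr rfl fun j _ => ?_
        by_cases h0 : x j = 0
        · simp [h0]
        · simp [h0]
      rw [h1, abs_neg]
      have := h i hi
      norm_num
      exact this
  | succ k ih =>
    obtain ⟨ε, hε, h⟩ := hB A (S.filter fun j => ¬ ∃ m : ℤ, x j * 2 ^ k = m)
    obtain ⟨x', hx'⟩ : ∃ x' : J → ℝ, x' = fun j =>
      if ∃ m : ℤ, x j * 2 ^ k = m then x j else x j + (1 / 2) ^ (k + 1) * ε j := ⟨_, rfl⟩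
    have hp : (0 : ℝ) < 2 ^ k := by positivity
    have hpq : ((1 : ℝ) / 2) ^ (k + 1) * 2 ^ k = 1 / 2 := by
      rw [pow_succ, div_pow, one_pow]
      field_simp
    have hboth : ∀ j, |x' j| ≤ 1 ∧ ∃ m : ℤ, x' j * 2 ^ k = m := by
      intro j
      by_cases hj : ∃ m : ℤ, x j * 2 ^ k = m
      · rw [hx']; simp only [hj, if_true]
        exact ⟨hx j, trivial⟩
      · have hxj : x' j = x j + (1 / 2) ^ (k + 1) * ε j := by rw [hx']; simp only [hj, if_false]
        obtain ⟨m, hm⟩ := hd j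
        rw [pow_succ, ← mul_assoc] at hm
        obtain ⟨c, hc | hc⟩ := Int.even_or_odd' m
        · exfalso
          apply hj
          refine ⟨c, ?_⟩
          rw [hc] at hm
          push_cast at hm
          linarith
        · have hb := hx j
          rw [abs_le] at hb
          have hm1 : (m : ℝ) ≤ 2 * 2 ^ k := by rw [← hm]; nlinarith
          have hm2 : -(2 * 2 ^ k) ≤ (m : ℝ) := by rw [← hm]; nlinarith
          have hm1' : m ≤ 2 * 2 ^ k := by exact_mod_cast hm1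
          have hm2' : -(2 * 2 ^ k) ≤ m := by exact_mod_cast hm2
          obtain ⟨m', hm', hlo, hhi⟩ : ∃ m' : ℤ, x' j * 2 ^ k = m' ∧ -(2 ^ k) ≤ m' ∧ m' ≤ 2 ^ k := by
            rcases hε j with he | he
            · refine ⟨c + 1, ?_, by omega, by omega⟩
              rw [hxj, he, mul_one, add_mul, hpq]
              rw [hc] at hm
              push_cast at hm ⊢
              linarith
            · refine ⟨c, ?_, by omega, by omega⟩
              rw [hxj, he, mul_neg, mul_one, add_mul, neg_mul, hpq]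
              rw [hc] at hm
              push_cast at hm ⊢
              linarith
          refine ⟨?_, m', hm'⟩
          have h1 : (-(2 ^ k) : ℝ) ≤ m' := by exact_mod_cast hlo
          have h2 : (m' : ℝ) ≤ 2 ^ k := by exact_mod_cast hhi
          rw [abs_le]
          constructor <;> nlinarith
    obtain ⟨y, hy, hyb⟩ := ih x' (fun j => (hboth j).1) (fun j => (hboth j).2)
    refine ⟨y, hy, fun i hi => ?_⟩
    have h1 : ∑ j ∈ S, W i j * (x j - y j) =
        -((1 / 2) ^ (k + 1) * ∑ j ∈ S.filter fun j => ¬ ∃ m : ℤ, x j * 2 ^ k = m, W i j * ε j) +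
        ∑ j ∈ S, W i j * (x' j - y j) := by
      rw [Finset.sum_filter, Finset.mul_sum, ← Finset.sum_neg_distrib, ← Finset.sum_add_distrib]
      refine Finset.sum_congr rfl fun j _ => ?_
      by_cases hj : ∃ m : ℤ, x j * 2 ^ k = m
      · have : x' j = x j := by rw [hx']; simp only [hj, if_true]
        rw [this]; simp [hj]
      · have : x' j = x j + (1 / 2) ^ (k + 1) * ε j := by rw [hx']; simp only [hj, if_false]
        rw [this, if_pos hj]; ring
    rw [h1]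
    refine (abs_add_le _ _).trans ?_
    rw [abs_neg, abs_mul, abs_of_pos (by positivity : (0 : ℝ) < (1 / 2) ^ (k + 1))]
    have h2 := mul_le_mul_of_nonneg_left (h i hi) (by positivity : (0 : ℝ) ≤ (1 / 2) ^ (k + 1))
    have h3 := hyb i hi
    have h4 : ((1 : ℝ) / 2) ^ k = 2 * (1 / 2) ^ (k + 1) := by rw [pow_succ]; ring
    rw [h4] at h3
    nlinarith

theorem approx (x : ℝ) (hx : |x| ≤ 1) (k : ℕ) :
    ∃ z : ℝ, |z| ≤ 1 ∧ (∃ m : ℤ, z * 2 ^ k = m) ∧ |x - z| ≤ (1 / 2) ^ k := by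
  have hp : (0 : ℝ) < 2 ^ k := by positivity
  rw [abs_le] at hx
  have h1 := Int.floor_le (x * 2 ^ k)
  have h2 := Int.lt_floor_add_one (x * 2 ^ k)
  have h3 : -(2 ^ k) ≤ ⌊x * 2 ^ k⌋ := Int.le_floor.2 (by push_cast; nlinarith)
  have h3' : (-(2 ^ k) : ℝ) ≤ (⌊x * 2 ^ k⌋ : ℝ) := by exact_mod_cast h3
  refine ⟨⌊x * 2 ^ k⌋ / 2 ^ k, ?_, ⟨⌊x * 2 ^ k⌋, by field_simp⟩, ?_⟩
  · rw [abs_le, le_div_iff₀ hp, div_le_iff₀ hp]
    constructor <;> nlinarith
  · have h4 : x - ⌊x * 2 ^ k⌋ / 2 ^ k = (x * 2 ^ k - ⌊x * 2 ^ k⌋) / 2 ^ k := by field_simp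
    have h5 : ((1 : ℝ) / 2) ^ k = 1 / 2 ^ k := by rw [div_pow, one_pow]
    rw [h4, abs_div, abs_of_pos hp, h5]
    refine div_le_div_of_nonneg_right ?_ hp.le
    rw [abs_le]
    constructor <;> linarith

theorem limit {I : Type u} {J : Type v} {W : I → J → ℝ} {B : I → ℝ} (hB : Her W B)
    (hs : ∀ i, Summable fun j => |W i j|) (hB0 : ∀ i, 0 ≤ B i)
    (x : J → ℝ) (hx : ∀ j, |x j| ≤ 1) :
    ∃ y : J → ℝ, Signs y ∧ ∀ i, |∑' j, W i j * (x j - y j)| ≤ 2 * B i := by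
  classical
  choose z hz1 hz2 hz3 using fun k j => approx (x j) (hx j) k
  have key : ∀ d : Finset I × Finset J × ℕ, ∃ y : J → ℝ, Signs y ∧ ∀ i ∈ d.1,
      |∑ j ∈ d.2.1, W i j * (x j - y j)| ≤ 2 * B i + (1 / 2) ^ d.2.2 * ∑' j, |W i j| := by
    rintro ⟨A, S, k⟩
    obtain ⟨y, hy, h⟩ := round hB A S k (z k) (hz1 k) (hz2 k)
    refine ⟨y, hy, fun i hi => ?_⟩
    have h1 : ∑ j ∈ S, W i j * (x j - y j) =
        ∑ j ∈ S, W i j * (x j - z k j) + ∑ j ∈ S, W i j * (z k j - y j) := by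
      rw [← Finset.sum_add_distrib]
      exact Finset.sum_congr rfl fun j _ => by ring
    have h2 : |∑ j ∈ S, W i j * (x j - z k j)| ≤ (1 / 2) ^ k * ∑' j, |W i j| := by
      refine (Finset.abs_sum_le_sum_abs _ _).trans ?_
      calc ∑ j ∈ S, |W i j * (x j - z k j)| ≤ ∑ j ∈ S, (1 / 2) ^ k * |W i j| :=
            Finset.sum_le_sum fun j _ => by
              rw [abs_mul, mul_comm]
              exact mul_le_mul_of_nonneg_right (hz3 k j) (abs_nonneg _)
        _ = (1 / 2) ^ k * ∑ j ∈ S, |W i j| := (Finset.mul_sum _ _ _).symm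
        _ ≤ _ := mul_le_mul_of_nonneg_left ((hs i).sum_le_tsum _ fun j _ => abs_nonneg _)
            (by positivity)
    have h3 := h i hi
    have h5 : (0 : ℝ) ≤ (1 / 2) ^ k := by positivity
    have h4 : B i * (2 - (1 / 2) ^ k) ≤ 2 * B i := by nlinarith [hB0 i]
    show |∑ j ∈ S, W i j * (x j - y j)| ≤ 2 * B i + (1 / 2) ^ k * ∑' j, |W i j|
    rw [h1]
    refine (abs_add_le _ _).trans ?_
    linarith
  choose Y hY1 hY2 using key
  let U : Ultrafilter (Finset I × Finset J × ℕ) := Ultrafilter.of atTop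
  have hU : (U : Filter (Finset I × Finset J × ℕ)) ≤ atTop := Ultrafilter.of_le _
  have hc : ∀ j, ∃ b : ℝ, (b = 1 ∨ b = -1) ∧
      ∀ᶠ d in (U : Filter (Finset I × Finset J × ℕ)), Y d j = b := by
    intro j
    by_cases h : ∀ᶠ d in (U : Filter (Finset I × Finset J × ℕ)), Y d j = 1
    · exact ⟨1, Or.inl rfl, h⟩
    · rw [← Ultrafilter.eventually_not] at h
      exact ⟨-1, Or.inr rfl, h.mono fun d hd => (hY1 d j).resolve_left hd⟩
  choose y hy hyU using hc
  refine ⟨y, hy, fun i => ?_⟩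
  refine le_of_forall_pos_le_add fun ε hε => ?_
  obtain ⟨δ, hδ, hδε⟩ : ∃ δ : ℝ, 0 < δ ∧ 5 * δ = ε := ⟨ε / 5, by positivity, by ring⟩
  -- a finite set carrying almost all of the row
  obtain ⟨S₀, hS₀⟩ : ∃ S₀ : Finset J, ∑' j, |W i j| - δ < ∑ j ∈ S₀, |W i j| :=
    ((hs i).hasSum.eventually (lt_mem_nhds (sub_lt_self _ hδ))).exists
  have tail : ∀ g : J → ℝ, (∀ j, |g j| ≤ 2 * |W i j|) → ∀ S, S₀ ⊆ S →
      |∑ j ∈ S, g j - ∑ j ∈ S₀, g j| ≤ 2 * δ := by
    intro g hg S hS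
    have h1 := Finset.sum_sdiff hS (f := g)
    have h2 := Finset.sum_sdiff hS (f := fun j => |W i j|)
    have h3 := (hs i).sum_le_tsum S fun j _ => abs_nonneg _
    rw [← h1, add_sub_cancel_right]
    refine (Finset.abs_sum_le_sum_abs _ _).trans ((Finset.sum_le_sum fun j _ => hg j).trans ?_)
    rw [← Finset.mul_sum]
    linarith
  have hg : ∀ w : J → ℝ, Signs w → ∀ j, |W i j * (x j - w j)| ≤ 2 * |W i j| := by
    intro w hw j
    rw [abs_mul, mul_comm]
    refine mul_le_mul_of_nonneg_right ?_ (abs_nonneg _)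
    have h1 := hx j
    rw [abs_le] at h1 ⊢
    rcases hw j with h | h <;> rw [h] <;> constructor <;> linarith [h1.1, h1.2]
  have hsum : Summable fun j => W i j * (x j - y j) :=
    Summable.of_norm_bounded ((hs i).mul_left 2) (hg y hy)
  have ht : |∑' j, W i j * (x j - y j) - ∑ j ∈ S₀, W i j * (x j - y j)| ≤ 2 * δ := by
    refine le_of_tendsto ((hsum.hasSum.sub_const _).abs) ?_
    exact (eventually_ge_atTop S₀).mono fun S hS => tail _ (hg y hy) S hS
  obtain ⟨k₀, hk₀⟩ := exists_pow_lt_of_lt_one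
    (show 0 < δ / (∑' j, |W i j| + 1) from div_pos hδ
      (by have := tsum_nonneg (L := .unconditional J) fun j => abs_nonneg (W i j); linarith))
    (by norm_num : (1 / 2 : ℝ) < 1)
  have hT : 0 ≤ ∑' j, |W i j| := tsum_nonneg fun j => abs_nonneg (W i j)
  have hge : ∀ᶠ d in (U : Filter (Finset I × Finset J × ℕ)),
      (({i}, S₀, k₀) : Finset I × Finset J × ℕ) ≤ d := hU (eventually_ge_atTop _)
  have hall : ∀ᶠ d in (U : Filter (Finset I × Finset J × ℕ)), ∀ j ∈ S₀, Y d j = y j :=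
    (Filter.eventually_all_finset S₀).2 fun j _ => hyU j
  obtain ⟨d, hd1, hd2⟩ := (hge.and hall).exists
  have hdi : i ∈ d.1 := hd1.1 (by simp)
  have hdS : S₀ ⊆ d.2.1 := hd1.2.1
  have hdk : k₀ ≤ d.2.2 := hd1.2.2
  have h1 := hY2 d i hdi
  have h2 := tail _ (hg (Y d) (hY1 d)) d.2.1 hdS
  have h3 : ∑ j ∈ S₀, W i j * (x j - Y d j) = ∑ j ∈ S₀, W i j * (x j - y j) :=
    Finset.sum_congr rfl fun j hj => by rw [hd2 j hj]
  rw [h3] at h2
  have h4 : ((1 : ℝ) / 2) ^ d.2.2 * ∑' j, |W i j| ≤ δ := by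
    have h5 : ((1 : ℝ) / 2) ^ d.2.2 ≤ (1 / 2) ^ k₀ :=
      pow_le_pow_of_le_one (by norm_num) (by norm_num) hdk
    have h6 := (h5.trans hk₀.le)
    rw [le_div_iff₀ (by linarith)] at h6
    have h7 : (0 : ℝ) ≤ (1 / 2) ^ d.2.2 := by positivity
    nlinarith
  rw [abs_le] at h1 h2 ht ⊢
  constructor <;> linarith [h1.1, h1.2, h2.1, h2.2, ht.1, ht.2]

/-- The library theorem gives the hereditary bound. -/
theorem her {C : ℝ} (hC : ∀ (n m : ℕ) (R Δ : ℝ) (V : Fin n → Fin m → ℝ),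
      (∀ i j, |V i j| ≤ 1) → (∀ i, ∑ j, |V i j| ≤ R) → (∀ j, ∑ i, |V i j| ≤ Δ) →
      ∃ y : Fin m → ℝ, (∀ j, y j = 1 ∨ y j = -1) ∧
        (Δ ≤ R → ∀ i, |∑ j, V i j * y j| ≤ C * Real.sqrt R) ∧
        ∀ i, |∑ j, V i j * y j| ≤
          C * Real.sqrt (1 + Δ + ∑ j, |V i j| + R ^ (2/5 : ℝ))) (hC0 : 0 < C)
    {I : Type u} {J : Type v} (W : I → J → ℝ) (R Δ : ℝ) (ρ : I → ℝ)
    (h1 : ∀ i j, |W i j| ≤ 1) (h2 : ∀ i (S : Finset J), ∑ j ∈ S, |W i j| ≤ R)
    (h3 : ∀ j (A : Finset I), ∑ i ∈ A, |W i j| ≤ Δ)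
    (h4 : ∀ i (S : Finset J), ∑ j ∈ S, |W i j| ≤ ρ i) :
    Her W (fun i => if Δ ≤ R then
      min (C * Real.sqrt R) (C * Real.sqrt (1 + Δ + ρ i + R ^ (2/5 : ℝ)))
      else C * Real.sqrt (1 + Δ + ρ i + R ^ (2/5 : ℝ))) := by
  classical
  intro A S
  let eA := A.equivFin
  let eS := S.equivFin
  have sumS : ∀ f : J → ℝ, ∑ b : Fin S.card, f (eS.symm b) = ∑ j ∈ S, f j := fun f => by
    rw [← Finset.sum_coe_sort S f]
    exact Equiv.sum_comp eS.symm (fun s : S => f s)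
  have sumA : ∀ f : I → ℝ, ∑ a : Fin A.card, f (eA.symm a) = ∑ i ∈ A, f i := fun f => by
    rw [← Finset.sum_coe_sort A f]
    exact Equiv.sum_comp eA.symm (fun s : A => f s)
  obtain ⟨y, hy, hy1, hy2⟩ := hC A.card S.card R Δ (fun a b => W (eA.symm a) (eS.symm b))
    (fun a b => h1 _ _) (fun a => (sumS fun j => |W (eA.symm a) j|).trans_le (h2 _ S))
    (fun b => (sumA fun i => |W i (eS.symm b)|).trans_le (h3 _ A))
  refine ⟨fun j => if hj : j ∈ S then y (eS ⟨j, hj⟩) else 1, fun j => ?_, fun i hi => ?_⟩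
  · by_cases hj : j ∈ S
    · simp only [hj, dif_pos]; exact hy _
    · simp [hj]
  · have e1 : ∑ j ∈ S, W i j * (if hj : j ∈ S then y (eS ⟨j, hj⟩) else 1) =
        ∑ b : Fin S.card, W (eA.symm (eA ⟨i, hi⟩)) (eS.symm b) * y b := by
      rw [← sumS]
      refine Finset.sum_congr rfl fun b _ => ?_
      rw [dif_pos (eS.symm b).2]
      simp
    have e2 : ∑ b : Fin S.card, |W (eA.symm (eA ⟨i, hi⟩)) (eS.symm b)| ≤ ρ i := by
      rw [Equiv.symm_apply_apply]
      exact (sumS fun j => |W i j|).trans_le (h4 _ S)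
    have b2 := (hy2 (eA ⟨i, hi⟩)).trans (mul_le_mul_of_nonneg_left (Real.sqrt_le_sqrt
      (add_le_add (add_le_add le_rfl e2) le_rfl)) hC0.le)
    rw [e1]
    by_cases hRD : Δ ≤ R
    · simp only [hRD, if_true]
      exact le_min (hy1 hRD _) b2
    · simp only [hRD, if_false]
      exact b2

/-- **Main theorem.** There is an absolute constant `C` such that for all index types `I`, `J`
(finite or infinite), all `R`, `Δ` and every complex `I × J` matrix `V` with entries of absolute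
value at most one, rows of `ℓ¹` norm at most `R` and columns of `ℓ¹` norm at most `Δ`, every vector
`x` of reals in `[-1, 1]` can be rounded to a vector `y` of signs such that
`|(V (x - y))_i| ≤ C √R` for all `i` if `Δ ≤ R`, and, without this hypothesis,
`|(V (x - y))_i| ≤ C √(1 + Δ + ‖v^i‖₁ + R^(2/5))` for all `i`. -/
theorem result : ∃ C : ℝ, 0 < C ∧ ∀ (I : Type u) (J : Type v) (R Δ : ℝ≥0) (V : I → J → ℂ),
    (∀ i j, ‖V i j‖ ≤ 1) → (∀ i, ∑' j, ‖V i j‖ₑ ≤ R) → (∀ j, ∑' i, ‖V i j‖ₑ ≤ Δ) →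
    ∀ x : J → ℝ, (∀ j, |x j| ≤ 1) →
      ∃ y : J → ℝ, (∀ j, y j = 1 ∨ y j = -1) ∧
        (∀ i, Summable fun j => V i j * ((x j - y j : ℝ) : ℂ)) ∧
        (Δ ≤ R → ∀ i, ‖∑' j, V i j * ((x j - y j : ℝ) : ℂ)‖ ≤ C * Real.sqrt R) ∧
        ∀ i, ‖∑' j, V i j * ((x j - y j : ℝ) : ℂ)‖ ≤
          C * Real.sqrt (1 + Δ + ∑' j, ‖V i j‖ + (R : ℝ) ^ (2/5 : ℝ)) := by
  obtain ⟨C, hC0, hC⟩ := Pool.Agent.Results.MP_aa9902_co.SqrtRowBound.result
  refine ⟨8 * C, by positivity, fun I J R Δ V hV hR hD x hx => ?_⟩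
  classical
  have row : ∀ i (S : Finset J), ∑ j ∈ S, ‖V i j‖ ≤ R := by
    intro i S
    have h1 := (ENNReal.sum_le_tsum (f := fun j => ‖V i j‖ₑ) S).trans (hR i)
    have h2 : ∑ j ∈ S, ‖V i j‖ₑ = ((∑ j ∈ S, ‖V i j‖₊ : ℝ≥0) : ℝ≥0∞) := by
      push_cast
      rfl
    rw [h2] at h1
    have h3 : ∑ j ∈ S, ‖V i j‖₊ ≤ R := by exact_mod_cast h1
    have h4 : ((∑ j ∈ S, ‖V i j‖₊ : ℝ≥0) : ℝ) ≤ R := by exact_mod_cast h3
    simpa using h4
  have col : ∀ j (A : Finset I), ∑ i ∈ A, ‖V i j‖ ≤ Δ := by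
    intro j A
    have h1 := (ENNReal.sum_le_tsum (f := fun i => ‖V i j‖ₑ) A).trans (hD j)
    have h2 : ∑ i ∈ A, ‖V i j‖ₑ = ((∑ i ∈ A, ‖V i j‖₊ : ℝ≥0) : ℝ≥0∞) := by
      push_cast
      rfl
    rw [h2] at h1
    have h3 : ∑ i ∈ A, ‖V i j‖₊ ≤ Δ := by exact_mod_cast h1
    have h4 : ((∑ i ∈ A, ‖V i j‖₊ : ℝ≥0) : ℝ) ≤ Δ := by exact_mod_cast h3
    simpa using h4
  have hsV : ∀ i, Summable fun j => ‖V i j‖ := fun i =>
    summable_of_sum_le (fun j => norm_nonneg _) (row i)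
  -- real and imaginary parts as rows
  obtain ⟨W, hW⟩ : ∃ W : I × Bool → J → ℝ, W = fun p j => if p.2 then (V p.1 j).im else
    (V p.1 j).re := ⟨_, rfl⟩
  have hWV : ∀ p j, |W p j| ≤ ‖V p.1 j‖ := by
    rintro ⟨i, b⟩ j
    rw [hW]
    cases b
    · simpa using Complex.abs_re_le_norm (V i j)
    · simpa using Complex.abs_im_le_norm (V i j)
  have hR2 : (0 : ℝ) ≤ R := R.2
  have hD2 : (0 : ℝ) ≤ Δ := Δ.2
  have her' := her hC hC0 W (2 * R) (2 * Δ) (fun p => ∑' j, ‖V p.1 j‖)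
    (fun p j => (hWV p j).trans (hV _ _))
    (fun p S => (Finset.sum_le_sum fun j _ => hWV p j).trans ((row p.1 S).trans (by linarith)))
    (fun j A' => by
      have h1 : A' ⊆ (A'.image Prod.fst) ×ˢ (Finset.univ : Finset Bool) := fun p hp =>
        Finset.mem_product.2 ⟨Finset.mem_image_of_mem _ hp, Finset.mem_univ _⟩
      refine (Finset.sum_le_sum_of_subset_of_nonneg h1 fun _ _ _ => abs_nonneg _).trans ?_
      rw [Finset.sum_product]
      refine le_trans (Finset.sum_le_sum (g := fun i => 2 * ‖V i j‖) fun i _ => ?_) ?_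
      · rw [Fintype.sum_bool]
        linarith [hWV (i, true) j, hWV (i, false) j]
      · rw [← Finset.mul_sum]
        linarith [col j (A'.image Prod.fst)])
    (fun p S => (Finset.sum_le_sum fun j _ => hWV p j).trans
      ((hsV p.1).sum_le_tsum S fun j _ => norm_nonneg _))
  have hT : ∀ i, 0 ≤ ∑' j, ‖V i j‖ := fun i => tsum_nonneg fun j => norm_nonneg _
  obtain ⟨y, hy, hyb⟩ := limit her'
    (fun p => Summable.of_nonneg_of_le (fun j => abs_nonneg _) (hWV p) (hsV p.1))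
    (fun p => by
      split_ifs
      · exact le_min (by positivity) (by positivity)
      · positivity) x hx
  have hxy : ∀ j, |x j - y j| ≤ 2 := by
    intro j
    have h1 := hx j
    rw [abs_le] at h1 ⊢
    rcases hy j with h | h <;> rw [h] <;> constructor <;> linarith [h1.1, h1.2]
  have hsum : ∀ i, Summable fun j => V i j * ((x j - y j : ℝ) : ℂ) := fun i =>
    Summable.of_norm_bounded ((hsV i).mul_left 2) fun j => by
      rw [norm_mul, Complex.norm_real, Real.norm_eq_abs, mul_comm]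
      exact mul_le_mul_of_nonneg_right (hxy j) (norm_nonneg _)
  -- the norm of the complex sum
  have hnorm : ∀ i, ‖∑' j, V i j * ((x j - y j : ℝ) : ℂ)‖ ≤
      |∑' j, W (i, false) j * (x j - y j)| + |∑' j, W (i, true) j * (x j - y j)| := by
    intro i
    have h1 : (∑' j, V i j * ((x j - y j : ℝ) : ℂ)).re = ∑' j, W (i, false) j * (x j - y j) := by
      have := Complex.reCLM.map_tsum (hsum i)
      simp only [Complex.reCLM_apply] at this
      rw [this]
      refine tsum_congr fun j => ?_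
      rw [Complex.re_mul_ofReal, hW]
      simp
    have h2 : (∑' j, V i j * ((x j - y j : ℝ) : ℂ)).im = ∑' j, W (i, true) j * (x j - y j) := by
      have := Complex.imCLM.map_tsum (hsum i)
      simp only [Complex.imCLM_apply] at this
      rw [this]
      refine tsum_congr fun j => ?_
      rw [Complex.im_mul_ofReal, hW]
      simp
    rw [← h1, ← h2]
    exact Complex.norm_le_abs_re_add_abs_im _
  have sq2 : ∀ a : ℝ, 0 ≤ a → Real.sqrt (2 * a) ≤ 2 * Real.sqrt a := fun a ha => by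
    have h1 : Real.sqrt (4 * a) = 2 * Real.sqrt a := by
      rw [show (4 : ℝ) * a = 2 ^ 2 * a by ring, Real.sqrt_mul (by norm_num),
        Real.sqrt_sq (by norm_num)]
    rw [← h1]
    exact Real.sqrt_le_sqrt (by linarith)
  have hpow : (2 * (R : ℝ)) ^ (2/5 : ℝ) ≤ 2 * (R : ℝ) ^ (2/5 : ℝ) := by
    rw [Real.mul_rpow (by norm_num) hR2]
    refine mul_le_mul_of_nonneg_right ?_ (Real.rpow_nonneg hR2 _)
    calc (2 : ℝ) ^ (2/5 : ℝ) ≤ 2 ^ (1 : ℝ) :=
          Real.rpow_le_rpow_of_exponent_le (by norm_num) (by norm_num)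
      _ = 2 := Real.rpow_one 2
  have hRp : 0 ≤ (R : ℝ) ^ (2/5 : ℝ) := Real.rpow_nonneg hR2 _
  have second : ∀ i, C * Real.sqrt (1 + 2 * Δ + ∑' j, ‖V i j‖ + (2 * (R : ℝ)) ^ (2/5 : ℝ)) ≤
      2 * C * Real.sqrt (1 + Δ + ∑' j, ‖V i j‖ + (R : ℝ) ^ (2/5 : ℝ)) := fun i => by
    have h1 := sq2 (1 + Δ + ∑' j, ‖V i j‖ + (R : ℝ) ^ (2/5 : ℝ)) (by have := hT i; positivity)
    have h2 : Real.sqrt (1 + 2 * Δ + ∑' j, ‖V i j‖ + (2 * (R : ℝ)) ^ (2/5 : ℝ)) ≤
        Real.sqrt (2 * (1 + Δ + ∑' j, ‖V i j‖ + (R : ℝ) ^ (2/5 : ℝ))) :=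
      Real.sqrt_le_sqrt (by linarith [hT i])
    nlinarith [mul_le_mul_of_nonneg_left (h2.trans h1) hC0.le]
  refine ⟨y, hy, hsum, fun hDR i => ?_, fun i => ?_⟩
  · have hDR' : (2 : ℝ) * Δ ≤ 2 * R := by
      have : (Δ : ℝ) ≤ R := by exact_mod_cast hDR
      linarith
    have b1 := hyb (i, false)
    have b2 := hyb (i, true)
    simp only [hDR', if_true] at b1 b2
    have b3 := min_le_left (C * Real.sqrt (2 * R))
      (C * Real.sqrt (1 + 2 * Δ + ∑' j, ‖V i j‖ + (2 * (R : ℝ)) ^ (2/5 : ℝ)))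
    have b4 := mul_le_mul_of_nonneg_left (sq2 R hR2) hC0.le
    have b5 := hnorm i
    linarith
  · have b1 := hyb (i, false)
    have b2 := hyb (i, true)
    have b5 := hnorm i
    have b6 := second i
    have b7 : (if (2 : ℝ) * Δ ≤ 2 * R then
        min (C * Real.sqrt (2 * R))
          (C * Real.sqrt (1 + 2 * Δ + ∑' j, ‖V i j‖ + (2 * (R : ℝ)) ^ (2/5 : ℝ)))
        else C * Real.sqrt (1 + 2 * Δ + ∑' j, ‖V i j‖ + (2 * (R : ℝ)) ^ (2/5 : ℝ))) ≤
        C * Real.sqrt (1 + 2 * Δ + ∑' j, ‖V i j‖ + (2 * (R : ℝ)) ^ (2/5 : ℝ)) := by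
      split_ifs
      · exact min_le_right _ _
      · exact le_rfl
    simp only at b1 b2
    linarith

end Pool.Agent.Results.MP_aa9902_co.LinearDiscrepancy
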